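import Pool.Agent.Helper78.LE.Defs

/-! Project LP: the area of the unit sphere of even dimension. -/

set_option autoImplicit false

open MeasureTheory Set

namespace Pool.Agent.Helper26.LPC

open Pool.Agent.Helper78.LE

theorem sphArea_even (k : ℕ) : sphArea (2 * k) =
    (2 * k + 1 : ℕ) * (Real.pi ^ k * 2 ^ (k + 1) / ((2 * k + 1 : ℕ).doubleFactorial : ℝ)) := by
  have hf : Module.finrank ℝ (EV (2 * k + 1)) = 2 * k + 1 := by simp
  unfold sphArea sphMeas
  rw [Measure.toSphere_apply_univ, InnerProductSpace.volume_ball_of_dim_odd hf, hf,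
    ENNReal.ofReal_one, one_pow, one_mul, ENNReal.toReal_mul, ENNReal.toReal_natCast,
    ENNReal.toReal_ofReal (by positivity)]

theorem sphArea_two : sphArea 2 = 4 * Real.pi := by
  have h := sphArea_even 1
  norm_num [Nat.doubleFactorial] at h
  rw [h]; ring

theorem sphArea_four : sphArea 4 = 8 * Real.pi ^ 2 / 3 := by
  have h := sphArea_even 2
  norm_num [Nat.doubleFactorial] at h
  rw [h]; ring

theorem sphArea_eight : sphArea 8 = 32 * Real.pi ^ 4 / 105 := by
  have h := sphArea_even 4
  norm_num [Nat.doubleFactorial] at h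
  rw [h]; ring

end Pool.Agent.Helper26.LPC
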