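import Pool.Agent.Helper79.LP.LP8

/-!
Project LP, numeric certificates: lower bound of the exponential integral `EE a x` by a finite
exponential sum (three point Gauss quadrature on intervals).
-/

set_option autoImplicit false

namespace Pool.Agent.Helper26.LPC

open Set Filter Topology
open Pool.Agent.Helper79.LP

section gauss

variable {w0 w1 ρ : ℝ}

theorem coef_le (h1 : 0 ≤ w1) (h3 : 3 * (w1 * ρ ^ 2) ≤ 1) (h5 : ρ ^ 2 ≤ 3 / 5) (n : ℕ) :
    w1 * ρ ^ (2 * (n + 1)) * (2 * ((n : ℝ) + 1) + 1) ≤ 1 := by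
  induction n with
  | zero => norm_num; linarith
  | succ n ih =>
    have e : ρ ^ (2 * (n + 1 + 1)) = ρ ^ (2 * (n + 1)) * ρ ^ 2 := by ring
    rw [e]
    push_cast
    have hp : 0 ≤ w1 * ρ ^ (2 * (n + 1)) := by
      rw [pow_mul]; positivity
    have hn : (0 : ℝ) ≤ n := Nat.cast_nonneg n
    have h6 : ρ ^ 2 * (2 * ((n : ℝ) + 1 + 1) + 1) ≤ 2 * ((n : ℝ) + 1) + 1 := by
      nlinarith [sq_nonneg ρ]
    calc w1 * (ρ ^ (2 * (n + 1)) * ρ ^ 2) * (2 * ((n : ℝ) + 1 + 1) + 1) =
          w1 * ρ ^ (2 * (n + 1)) * (ρ ^ 2 * (2 * ((n : ℝ) + 1 + 1) + 1)) := by ring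
      _ ≤ w1 * ρ ^ (2 * (n + 1)) * (2 * ((n : ℝ) + 1) + 1) := mul_le_mul_of_nonneg_left h6 hp
      _ ≤ 1 := ih

theorem gauss_le (h1 : 0 ≤ w1) (h3 : 3 * (w1 * ρ ^ 2) ≤ 1) (h5 : ρ ^ 2 ≤ 3 / 5)
    (h0 : w0 + w1 ≤ 1) {z : ℝ} (hz : 0 ≤ z) :
    z * (w0 + w1 * Real.cosh (ρ * z)) ≤ Real.sinh z := by
  have hc := (Real.hasSum_cosh (ρ * z)).mul_left (z * w1)
  have hs := Real.hasSum_sinh z
  have h00 : HasSum (fun n : ℕ => if n = 0 then z * w0 else 0) (z * w0) :=
    hasSum_ite_eq 0 (z * w0)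
  have h := hasSum_le (fun n => ?_) (h00.add hc) hs
  · calc z * (w0 + w1 * Real.cosh (ρ * z)) = z * w0 + z * w1 * Real.cosh (ρ * z) := by ring
      _ ≤ _ := h
  · rcases n with _ | n
    · simp only [if_true]
      norm_num [Nat.factorial]
      nlinarith
    · rw [if_neg (Nat.succ_ne_zero n), zero_add]
      have e1 : ((2 * (n + 1) + 1).factorial : ℝ) =
          (2 * ((n : ℝ) + 1) + 1) * ((2 * (n + 1)).factorial : ℝ) := by
        rw [Nat.factorial_succ]; push_cast; ring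
      rw [e1, mul_pow]
      have hf : (0 : ℝ) < ((2 * (n + 1)).factorial : ℝ) := by exact_mod_cast Nat.factorial_pos _
      have hn : (0 : ℝ) < 2 * ((n : ℝ) + 1) + 1 := by positivity
      rw [le_div_iff₀ (by positivity)]
      have hzp : 0 ≤ z ^ (2 * (n + 1) + 1) := by positivity
      have h6 := mul_le_mul_of_nonneg_left (coef_le h1 h3 h5 n) hzp
      rw [mul_one] at h6
      refine le_trans (le_of_eq ?_) h6
      rw [pow_succ z (2 * (n + 1))]
      field_simp

theorem interval_le (h1 : 0 ≤ w1) (h3 : 3 * (w1 * ρ ^ 2) ≤ 1) (h5 : ρ ^ 2 ≤ 3 / 5)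
    (h0 : w0 + w1 ≤ 1) {c h x : ℝ} (hh : 0 ≤ h) (hx : 0 < x) :
    h * (2 * w0 * Real.exp (-(c * x)) + w1 * (Real.exp (-((c - ρ * h) * x)) +
      Real.exp (-((c + ρ * h) * x)))) ≤
      (Real.exp (-((c - h) * x)) - Real.exp (-((c + h) * x))) / x := by
  have hg := gauss_le h1 h3 h5 h0 (z := h * x) (by positivity)
  rw [le_div_iff₀ hx]
  have e1 : Real.exp (-((c - ρ * h) * x)) = Real.exp (-(c * x)) * Real.exp (ρ * (h * x)) := by
    rw [← Real.exp_add]; congr 1; ring
  have e2 : Real.exp (-((c + ρ * h) * x)) = Real.exp (-(c * x)) * Real.exp (-(ρ * (h * x))) := by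
    rw [← Real.exp_add]; congr 1; ring
  have e3 : Real.exp (-((c - h) * x)) = Real.exp (-(c * x)) * Real.exp (h * x) := by
    rw [← Real.exp_add]; congr 1; ring
  have e4 : Real.exp (-((c + h) * x)) = Real.exp (-(c * x)) * Real.exp (-(h * x)) := by
    rw [← Real.exp_add]; congr 1; ring
  rw [e1, e2, e3, e4]
  rw [Real.cosh_eq, Real.sinh_eq] at hg
  have hE : 0 < Real.exp (-(c * x)) := Real.exp_pos _
  have h7 := mul_le_mul_of_nonneg_left hg hE.le
  linarith

end gauss

/-- the node parameter -/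
def rq : ℚ := 7745966 / 10000000

/-- the outer weight -/
def wq : ℚ := 5555555 / 10000000

/-- the contribution of one interval -/
def node (t t' : ℚ) : List (ℚ × ℚ) :=
  [((t' - t) / 2 * wq / ((t + t') / 2 - rq * ((t' - t) / 2)) / 2,
      (t + t') / 2 - rq * ((t' - t) / 2)),
    ((t' - t) / 2 * (2 * (1 - wq)) / ((t + t') / 2) / 2, (t + t') / 2),
    ((t' - t) / 2 * wq / ((t + t') / 2 + rq * ((t' - t) / 2)) / 2,
      (t + t') / 2 + rq * ((t' - t) / 2))]

/-- the quadrature of `EE a x / 2` -/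
def nodes : ℚ → List ℚ → List (ℚ × ℚ)
  | _, [] => []
  | t, t' :: l => node t t' ++ nodes t' l

/-- increasing steps -/
def incr : ℚ → List ℚ → Bool
  | _, [] => true
  | t, t' :: l => decide (t ≤ t') && incr t' l

/-- `∑ c exp (-(m x))` -/
noncomputable def QL (L : List (ℚ × ℚ)) (x : ℝ) : ℝ :=
  (L.map fun t => (t.1 : ℝ) * Real.exp (-((t.2 : ℝ) * x))).sum

/-- `-∑ c m exp (-(m x))` -/
noncomputable def QD (L : List (ℚ × ℚ)) (x : ℝ) : ℝ :=
  (L.map fun t => (t.1 : ℝ) * t.2 * Real.exp (-((t.2 : ℝ) * x))).sum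

theorem QL_nil (x : ℝ) : QL [] x = 0 := rfl

theorem QL_cons (t : ℚ × ℚ) (L : List (ℚ × ℚ)) (x : ℝ) :
    QL (t :: L) x = (t.1 : ℝ) * Real.exp (-((t.2 : ℝ) * x)) + QL L x := rfl

theorem QD_cons (t : ℚ × ℚ) (L : List (ℚ × ℚ)) (x : ℝ) :
    QD (t :: L) x = (t.1 : ℝ) * t.2 * Real.exp (-((t.2 : ℝ) * x)) + QD L x := rfl

theorem QL_append (L M : List (ℚ × ℚ)) (x : ℝ) : QL (L ++ M) x = QL L x + QL M x := by
  induction L with
  | nil => rw [List.nil_append, QL_nil, zero_add]
  | cons t L ih => rw [List.cons_append, QL_cons, QL_cons, ih]; ring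

theorem QD_append (L M : List (ℚ × ℚ)) (x : ℝ) : QD (L ++ M) x = QD L x + QD M x := by
  induction L with
  | nil => rw [List.nil_append]; simp [QD]
  | cons t L ih => rw [List.cons_append, QD_cons, QD_cons, ih]; ring

theorem QL_hasDeriv (L : List (ℚ × ℚ)) (x : ℝ) : HasDerivAt (QL L) (-QD L x) x := by
  induction L with
  | nil =>
    have h : QL [] = fun _ => (0 : ℝ) := by funext y; rfl
    rw [h]
    have h2 : QD [] x = 0 := rfl
    rw [h2, neg_zero]
    exact hasDerivAt_const x 0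
  | cons t L ih =>
    have h : QL (t :: L) = fun y => (t.1 : ℝ) * Real.exp (-((t.2 : ℝ) * y)) + QL L y := by
      funext y; rfl
    rw [h, QD_cons]
    have h1 : HasDerivAt (fun y : ℝ => -((t.2 : ℝ) * y)) (-(t.2 : ℝ)) x := by
      simpa using (hasDerivAt_id x).const_mul (-(t.2 : ℝ))
    have h2 := ((h1.exp).const_mul (t.1 : ℝ)).add ih
    refine h2.congr_deriv ?_
    ring

theorem QL_tendsto (L : List (ℚ × ℚ)) (h : ∀ t ∈ L, 0 < t.2) :
    Tendsto (QL L) atTop (𝓝 0) := by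
  induction L with
  | nil =>
    have h : QL [] = fun _ => (0 : ℝ) := by funext y; rfl
    rw [h]
    exact tendsto_const_nhds
  | cons t L ih =>
    have h' : QL (t :: L) = fun y => (t.1 : ℝ) * Real.exp (-((t.2 : ℝ) * y)) + QL L y := by
      funext y; rfl
    rw [h']
    have ht : (0 : ℝ) < t.2 := by exact_mod_cast h t (List.mem_cons_self)
    have h1 : Tendsto (fun y : ℝ => Real.exp (-((t.2 : ℝ) * y))) atTop (𝓝 0) :=
      Real.tendsto_exp_neg_atTop_nhds_zero.comp (tendsto_id.const_mul_atTop ht)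
    have h2 := (h1.const_mul (t.1 : ℝ)).add (ih fun s hs => h s (List.mem_cons_of_mem _ hs))
    simpa using h2

theorem nodes_pos (l : List ℚ) : ∀ t : ℚ, 0 < t → incr t l = true →
    ∀ s ∈ nodes t l, 0 < s.2 := by
  induction l with
  | nil => intro t _ _ s hs; simp [nodes] at hs
  | cons t' l ih =>
    intro t ht hi s hs
    have e : incr t (t' :: l) = (decide (t ≤ t') && incr t' l) := rfl
    rw [e, Bool.and_eq_true] at hi
    have htt : t ≤ t' := of_decide_eq_true hi.1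
    have e2 : nodes t (t' :: l) = node t t' ++ nodes t' l := rfl
    rw [e2, List.mem_append] at hs
    rcases hs with hs | hs
    · simp only [node, List.mem_cons, List.not_mem_nil, or_false] at hs
      rcases hs with hs | hs | hs <;> rw [hs] <;> simp only [rq] <;> linarith
    · exact ih t' (by linarith) hi.2 s hs

theorem nodes_le (l : List ℚ) : ∀ t : ℚ, 0 < t → incr t l = true → ∀ x : ℝ, 0 < x →
    QD (nodes t l) x ≤ Real.exp (-((t : ℝ) * x)) / x / 2 := by
  induction l with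
  | nil =>
    intro t _ _ x hx
    have : QD (nodes t []) x = 0 := rfl
    rw [this]; positivity
  | cons t' l ih =>
    intro t ht hi x hx
    have e : incr t (t' :: l) = (decide (t ≤ t') && incr t' l) := rfl
    rw [e, Bool.and_eq_true] at hi
    have htt : t ≤ t' := of_decide_eq_true hi.1
    have e2 : nodes t (t' :: l) = node t t' ++ nodes t' l := rfl
    rw [e2, QD_append]
    have h1 := ih t' (by linarith) hi.2 x hx
    have ht0 : (0 : ℝ) < t := by exact_mod_cast ht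
    have htr : (t : ℝ) ≤ t' := by exact_mod_cast htt
    have h2 := interval_le (w0 := 1 - (wq : ℝ)) (w1 := (wq : ℝ)) (ρ := (rq : ℝ))
      (by norm_num [wq]) (by norm_num [wq, rq]) (by norm_num [rq]) (by linarith)
      (c := ((t : ℝ) + t') / 2) (h := ((t' : ℝ) - t) / 2) (x := x) (by linarith) hx
    have e3 : ((t : ℝ) + t') / 2 - ((t' : ℝ) - t) / 2 = t := by ring
    have e4 : ((t : ℝ) + t') / 2 + ((t' : ℝ) - t) / 2 = t' := by ring
    rw [e3, e4] at h2
    have hc1 : (0 : ℝ) < ((t : ℝ) + t') / 2 - rq * (((t' : ℝ) - t) / 2) := by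
      simp only [rq]; push_cast; linarith
    have hc2 : (0 : ℝ) < ((t : ℝ) + t') / 2 + rq * (((t' : ℝ) - t) / 2) := by
      simp only [rq]; push_cast; linarith
    have hc0 : (0 : ℝ) < ((t : ℝ) + t') / 2 := by linarith
    have h3 : QD (node t t') x = (((t' : ℝ) - t) / 2 *
        (2 * (1 - (wq : ℝ)) * Real.exp (-(((t : ℝ) + t') / 2 * x)) +
        wq * (Real.exp (-((((t : ℝ) + t') / 2 - rq * (((t' : ℝ) - t) / 2)) * x)) +
          Real.exp (-((((t : ℝ) + t') / 2 + rq * (((t' : ℝ) - t) / 2)) * x))))) / 2 := by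
      simp only [node, QD, List.map_cons, List.map_nil, List.sum_cons, List.sum_nil]
      push_cast
      generalize hE1 : Real.exp (-((((t : ℝ) + t') / 2 - rq * (((t' : ℝ) - t) / 2)) * x)) = E1
      generalize hE2 : Real.exp (-((((t : ℝ) + t') / 2 + rq * (((t' : ℝ) - t) / 2)) * x)) = E2
      generalize hE0 : Real.exp (-(((t : ℝ) + t') / 2 * x)) = E0
      have k0 := hc0.ne'
      have k1 := hc1.ne'
      have k2 := hc2.ne'
      generalize ((t : ℝ) + t') / 2 - rq * (((t' : ℝ) - t) / 2) = m1 at k1 ⊢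
      generalize ((t : ℝ) + t') / 2 + rq * (((t' : ℝ) - t) / 2) = m2 at k2 ⊢
      generalize ((t : ℝ) + t') / 2 = m0 at k0 ⊢
      field_simp
      ring
    rw [h3]
    have h4 : (Real.exp (-((t : ℝ) * x)) - Real.exp (-((t' : ℝ) * x))) / x / 2 +
        Real.exp (-((t' : ℝ) * x)) / x / 2 = Real.exp (-((t : ℝ) * x)) / x / 2 := by ring
    rw [← h4]
    exact add_le_add (div_le_div_of_nonneg_right h2 (by norm_num)) h1

/-- **lower quadrature** -/
theorem quad_le {a : ℚ} (ha : 0 < a) (l : List ℚ) (hi : incr a l = true) {x : ℝ} (hx : 0 < x) :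
    QL (nodes a l) x ≤ 1 / 2 * EE (a : ℝ) x := by
  have har : (0 : ℝ) < a := by exact_mod_cast ha
  set Φ : ℝ → ℝ := fun y => 1 / 2 * EE (a : ℝ) y - QL (nodes a l) y with hΦ
  have hd : ∀ y : ℝ, 0 < y → HasDerivAt Φ
      (1 / 2 * (-(Real.exp (-((a : ℝ) * y)) / y)) - (-QD (nodes a l) y)) y := fun y hy =>
    ((EE_hasDerivAt (a : ℝ) y har hy).const_mul (1 / 2)).sub (QL_hasDeriv _ y)
  have hanti : AntitoneOn Φ (Ioi 0) := by
    apply antitoneOn_of_deriv_nonpos (convex_Ioi 0)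
    · exact fun y hy => (hd y hy).continuousAt.continuousWithinAt
    · intro y hy
      rw [interior_Ioi] at hy
      exact (hd y hy).differentiableAt.differentiableWithinAt
    · intro y hy
      rw [interior_Ioi] at hy
      rw [(hd y hy).deriv]
      have := nodes_le l a ha hi y hy
      linarith
  have hT := QL_tendsto (nodes a l) (nodes_pos l a ha hi)
  have h1 : ∀ᶠ y : ℝ in atTop, -Φ x ≤ QL (nodes a l) y := by
    filter_upwards [eventually_ge_atTop x] with y hy
    have h2 := hanti (mem_Ioi.2 hx) (mem_Ioi.2 (hx.trans_le hy)) hy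
    have h3 := EE_nonneg (a : ℝ) y har
    have h4 : Φ y = 1 / 2 * EE (a : ℝ) y - QL (nodes a l) y := rfl
    linarith
  have h5 : -Φ x ≤ 0 := ge_of_tendsto hT h1
  have h6 : Φ x = 1 / 2 * EE (a : ℝ) x - QL (nodes a l) x := rfl
  linarith

end Pool.Agent.Helper26.LPC
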