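import Pool.Agent.Helper26.LPC.Run
import Pool.Agent.Helper26.LPC.Quad
import Pool.Agent.Helper79.LP.LP7

/-!
Project LP, numeric certificates: from the kernel check to the hypothesis of `lp_lower`.
-/

set_option autoImplicit false

namespace Pool.Agent.Helper26.LPC

open Set Filter Topology
open Pool.Agent.Helper79.LP

/-- signed list of the terms of `lpF` -/
def cfq {R K : ℕ} (α : Fin K → ℚ) (v : Fin R → Fin K → ℚ) (m : ℕ) (k l : Fin K) : ℚ :=
  (List.ofFn fun r => v r k * v r l).sum / (α k + α l) ^ m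

def TL {R K : ℕ} (α : Fin K → ℚ) (v : Fin R → Fin K → ℚ) (m : ℕ) : List (ℚ × ℚ) :=
  (List.ofFn fun k => List.ofFn fun l => (cfq α v m k l, α k * α l / (α k + α l))).flatten

theorem lpF_eq {R K : ℕ} (α : Fin K → ℚ) (v : Fin R → Fin K → ℚ) (m : ℕ) (hα : ∀ k, 0 < α k)
    (x : ℝ) : lpF (2 * m) (fun k => (α k : ℝ)) (fun r k => (v r k : ℝ)) x = QL (TL α v m) x := by
  unfold lpF QL TL
  rw [List.map_flatten, List.sum_flatten, List.map_ofFn, List.map_ofFn, List.sum_ofFn,
    Finset.sum_comm]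
  refine Finset.sum_congr rfl fun k _ => ?_
  simp only [Function.comp]
  rw [List.map_ofFn, List.sum_ofFn, Finset.sum_comm]
  refine Finset.sum_congr rfl fun l _ => ?_
  simp only [Function.comp, cfq]
  rw [List.sum_ofFn]
  have hA : (0 : ℝ) < (α k : ℝ) + α l := by
    have h1 : (0 : ℝ) < α k := by exact_mod_cast hα k
    have h2 : (0 : ℝ) < α l := by exact_mod_cast hα l
    linarith
  have hp : ((α k : ℝ) + α l) ^ (-((2 * m : ℕ) : ℝ) / 2) = 1 / ((α k : ℝ) + α l) ^ m := by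
    rw [show -((2 * m : ℕ) : ℝ) / 2 = -(m : ℝ) by push_cast; ring, Real.rpow_neg hA.le,
      Real.rpow_natCast, one_div]
  rw [hp]
  push_cast
  rw [Finset.sum_div, Finset.sum_mul]
  refine Finset.sum_congr rfl fun r _ => ?_
  ring

/-- positive terms -/
def posL (L : List (ℚ × ℚ)) : List (ℚ × ℚ) := L.filter fun t => decide (0 < t.1)

/-- negative terms, with the sign changed -/
def negL : List (ℚ × ℚ) → List (ℚ × ℚ)
  | [] => []
  | t :: l => bif decide (0 < t.1) then negL l else (-t.1, t.2) :: negL l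

theorem QL_split (L : List (ℚ × ℚ)) (x : ℝ) : QL L x = QL (posL L) x - QL (negL L) x := by
  induction L with
  | nil => simp [posL, negL, QL]
  | cons t L ih =>
    by_cases h : 0 < t.1
    · have e1 : posL (t :: L) = t :: posL L := by
        unfold posL; rw [List.filter_cons_of_pos (by simpa using h)]
      have e2 : negL (t :: L) = negL L := by
        show (bif decide (0 < t.1) then negL L else (-t.1, t.2) :: negL L) = _
        rw [decide_eq_true h]; rfl
      rw [e1, e2, QL_cons, QL_cons, ih]; ring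
    · have e1 : posL (t :: L) = posL L := by
        unfold posL; rw [List.filter_cons_of_neg (by simpa using h)]
      have e2 : negL (t :: L) = (-t.1, t.2) :: negL L := by
        show (bif decide (0 < t.1) then negL L else (-t.1, t.2) :: negL L) = _
        rw [decide_eq_false h]; rfl
      rw [e1, e2, QL_cons, QL_cons, ih]; push_cast; ring

/-- rounding down: `g ≤ c G`, `m B ≤ s` -/
def cmpP (G B : ℕ) : List (ℚ × ℚ) → List (ℕ × ℕ) → Bool
  | [], [] => true
  | t :: l, u :: k => decide ((u.1 : ℚ) ≤ t.1 * G) && (decide (t.2 * B ≤ (u.2 : ℚ)) && cmpP G B l k)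
  | [], _ :: _ => false
  | _ :: _, [] => false

/-- rounding up: `c G ≤ g`, `s ≤ m B` -/
def cmpN (G B : ℕ) : List (ℚ × ℚ) → List (ℕ × ℕ) → Bool
  | [], [] => true
  | t :: l, u :: k => decide (t.1 * G ≤ (u.1 : ℚ)) && (decide ((u.2 : ℚ) ≤ t.2 * B) && cmpN G B l k)
  | [], _ :: _ => false
  | _ :: _, [] => false

theorem cmpP_le {G B Q : ℕ} (hB : 0 < B) (hQ : 0 < Q) :
    ∀ (l : List (ℚ × ℚ)) (k : List (ℕ × ℕ)), cmpP G B l k = true → ∀ x : ℝ, 0 ≤ x →
      EL k (B * Q) (Q * x) ≤ G * QL l x := by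
  intro l
  induction l with
  | nil =>
    intro k h x hx
    rcases k with _ | ⟨u, k⟩
    · simp [EL, QL]
    · simp [cmpP] at h
  | cons t l ih =>
    intro k h x hx
    rcases k with _ | ⟨u, k⟩
    · simp [cmpP] at h
    · have e : cmpP G B (t :: l) (u :: k) =
          (decide ((u.1 : ℚ) ≤ t.1 * G) && (decide (t.2 * B ≤ (u.2 : ℚ)) && cmpP G B l k)) := rfl
      rw [e, Bool.and_eq_true, Bool.and_eq_true] at h
      have h1 : ((u.1 : ℚ) : ℝ) ≤ ((t.1 * G : ℚ) : ℝ) := by exact_mod_cast of_decide_eq_true h.1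
      have h2 : ((t.2 * B : ℚ) : ℝ) ≤ ((u.2 : ℚ) : ℝ) := by exact_mod_cast of_decide_eq_true h.2.1
      push_cast at h1 h2
      have h3 := ih k h.2.2 x hx
      rw [EL_cons, QL_cons, mul_add]
      refine add_le_add ?_ h3
      have hBr : (0 : ℝ) < B := by exact_mod_cast hB
      have hQr : (0 : ℝ) < Q := by exact_mod_cast hQ
      have h4 : (t.2 : ℝ) * x ≤ (u.2 : ℝ) * (Q * x) / ((B * Q : ℕ) : ℝ) := by
        push_cast
        rw [le_div_iff₀ (by positivity)]
        have := mul_le_mul_of_nonneg_right h2 (show 0 ≤ (Q : ℝ) * x by positivity)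
        linarith
      calc (u.1 : ℝ) * Real.exp (-((u.2 : ℝ) * (Q * x) / ((B * Q : ℕ) : ℝ))) ≤
            (u.1 : ℝ) * Real.exp (-((t.2 : ℝ) * x)) :=
            mul_le_mul_of_nonneg_left (Real.exp_le_exp.2 (by linarith)) (Nat.cast_nonneg _)
        _ ≤ ((t.1 : ℝ) * G) * Real.exp (-((t.2 : ℝ) * x)) :=
            mul_le_mul_of_nonneg_right h1 (Real.exp_pos _).le
        _ = _ := by ring

theorem cmpN_le {G B Q : ℕ} (hB : 0 < B) (hQ : 0 < Q) :
    ∀ (l : List (ℚ × ℚ)) (k : List (ℕ × ℕ)), cmpN G B l k = true → ∀ x : ℝ, 0 ≤ x →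
      G * QL l x ≤ EL k (B * Q) (Q * x) := by
  intro l
  induction l with
  | nil =>
    intro k h x hx
    rcases k with _ | ⟨u, k⟩
    · simp [EL, QL]
    · simp [cmpN] at h
  | cons t l ih =>
    intro k h x hx
    rcases k with _ | ⟨u, k⟩
    · simp [cmpN] at h
    · have e : cmpN G B (t :: l) (u :: k) =
          (decide (t.1 * G ≤ (u.1 : ℚ)) && (decide ((u.2 : ℚ) ≤ t.2 * B) && cmpN G B l k)) := rfl
      rw [e, Bool.and_eq_true, Bool.and_eq_true] at h
      have h1 : ((t.1 * G : ℚ) : ℝ) ≤ ((u.1 : ℚ) : ℝ) := by exact_mod_cast of_decide_eq_true h.1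
      have h2 : ((u.2 : ℚ) : ℝ) ≤ ((t.2 * B : ℚ) : ℝ) := by exact_mod_cast of_decide_eq_true h.2.1
      push_cast at h1 h2
      have h3 := ih k h.2.2 x hx
      rw [EL_cons, QL_cons, mul_add]
      refine add_le_add ?_ h3
      have hBr : (0 : ℝ) < B := by exact_mod_cast hB
      have hQr : (0 : ℝ) < Q := by exact_mod_cast hQ
      have h4 : (u.2 : ℝ) * (Q * x) / ((B * Q : ℕ) : ℝ) ≤ (t.2 : ℝ) * x := by
        push_cast
        rw [div_le_iff₀ (by positivity)]
        have := mul_le_mul_of_nonneg_right h2 (show 0 ≤ (Q : ℝ) * x by positivity)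
        linarith
      calc (G : ℝ) * ((t.1 : ℝ) * Real.exp (-((t.2 : ℝ) * x))) =
            ((t.1 : ℝ) * G) * Real.exp (-((t.2 : ℝ) * x)) := by ring
        _ ≤ (u.1 : ℝ) * Real.exp (-((t.2 : ℝ) * x)) :=
            mul_le_mul_of_nonneg_right h1 (Real.exp_pos _).le
        _ ≤ (u.1 : ℝ) * Real.exp (-((u.2 : ℝ) * (Q * x) / ((B * Q : ℕ) : ℝ))) :=
            mul_le_mul_of_nonneg_left (Real.exp_le_exp.2 (by linarith)) (Nat.cast_nonneg _)

/-- **the certificate** -/
theorem cert {R K : ℕ} {α : Fin K → ℚ} {v : Fin R → Fin K → ℚ} {m : ℕ} {a β δ : ℚ}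
    {steps : List ℚ} {G B Q : ℕ} {Lp Ln : List (ℕ × ℕ)} {sg : ℕ} {cells : List (ℕ × ℕ)}
    (hG : 0 < G) (hB : 0 < B) (hQ : 0 < Q) (ha : 0 < a) (hα : ∀ k, 0 < α k)
    (hi : incr a steps = true)
    (hP : cmpP G B (nodes a steps ++ negL (TL α v m)) Lp = true)
    (hN : cmpN G B ((δ, β) :: posL (TL α v m)) Ln = true)
    (hrun : run Lp Ln (B * Q) sg cells 0 = true) (x : ℝ) (hx : 0 < x) :
    lpF (2 * m) (fun k => (α k : ℝ)) (fun r k => (v r k : ℝ)) x +
      (δ : ℝ) * Real.exp (-((β : ℝ) * x)) ≤ 1 / 2 * EE (a : ℝ) x := by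
  have hGr : (0 : ℝ) < G := by exact_mod_cast hG
  have h1 := quad_le ha steps hi hx
  have h2 := cmpP_le hB hQ _ _ hP x hx.le
  have h3 := cmpN_le hB hQ _ _ hN x hx.le
  have h4 := run_pos (Nat.mul_pos hB hQ) cells 0 hrun (Q * x) (by push_cast; positivity)
  rw [QL_append] at h2
  rw [QL_cons] at h3
  rw [lpF_eq α v m hα, QL_split (TL α v m)]
  have h5 : (G : ℝ) * ((δ : ℝ) * Real.exp (-((β : ℝ) * x)) + QL (posL (TL α v m)) x) <
      G * (QL (nodes a steps) x + QL (negL (TL α v m)) x) := lt_of_le_of_lt h3 (lt_of_lt_of_le h4 h2)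
  have h6 := lt_of_mul_lt_mul_left h5 hGr.le
  linarith

end Pool.Agent.Helper26.LPC
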