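import Pool.Agent.Helper26.LPC.Fix

/-!
Project LP, numeric certificates: positivity of exponential sums
`∑ g exp (-(s X / b))` by cells with Taylor expansions of degree `7`, in natural numbers.
-/

set_option autoImplicit false

namespace Pool.Agent.Helper26.LPC

open Finset Set

/-- `∑ g exp (-(s X / b))` over a list of pairs `(g, s)` -/
noncomputable def EL (L : List (ℕ × ℕ)) (b : ℕ) (X : ℝ) : ℝ :=
  (L.map fun t => (t.1 : ℝ) * Real.exp (-((t.2 : ℝ) * X / b))).sum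

theorem EL_nil (b : ℕ) (X : ℝ) : EL [] b X = 0 := rfl

theorem EL_cons (t : ℕ × ℕ) (L : List (ℕ × ℕ)) (b : ℕ) (X : ℝ) :
    EL (t :: L) b X = (t.1 : ℝ) * Real.exp (-((t.2 : ℝ) * X / b)) + EL L b X := rfl

theorem EL_nonneg (L : List (ℕ × ℕ)) (b : ℕ) (X : ℝ) : 0 ≤ EL L b X := by
  induction L with
  | nil => exact le_of_eq rfl
  | cons t L ih => rw [EL_cons]; positivity

/-- moments -/
noncomputable def mo (L : List (ℕ × ℕ)) (e : ℕ → ℕ) (k : ℕ) : ℕ :=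
  List.rec 0 (fun t _ ih => t.1 * e t.2 * t.2 ^ k + ih) L

/-- the error moment -/
noncomputable def mo8 (L : List (ℕ × ℕ)) (e : ℕ → ℕ) (w b : ℕ) : ℕ :=
  List.rec 0 (fun t _ ih => t.1 * e t.2 * 3 ^ (t.2 * w / b + 1) * t.2 ^ 8 + ih) L

theorem mo_cons (t : ℕ × ℕ) (L : List (ℕ × ℕ)) (e : ℕ → ℕ) (k : ℕ) :
    mo (t :: L) e k = t.1 * e t.2 * t.2 ^ k + mo L e k := rfl

theorem mo8_cons (t : ℕ × ℕ) (L : List (ℕ × ℕ)) (e : ℕ → ℕ) (w b : ℕ) :
    mo8 (t :: L) e w b = t.1 * e t.2 * 3 ^ (t.2 * w / b + 1) * t.2 ^ 8 + mo8 L e w b := rfl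

/-- the Taylor polynomial with the moments as coefficients -/
noncomputable def TP (m : ℕ → ℝ) (x : ℝ) : ℝ := ∑ k ∈ range 8, x ^ k / (k.factorial : ℝ) * m k

theorem TP_add (m m' : ℕ → ℝ) (x : ℝ) : TP (fun k => m k + m' k) x = TP m x + TP m' x := by
  unfold TP
  rw [← sum_add_distrib]
  exact sum_congr rfl fun k _ => by ring

theorem TP_mul (c s x : ℝ) : TP (fun k => c * s ^ k) x = c * TS 8 (s * x) := by
  unfold TP TS
  rw [mul_sum]
  exact sum_congr rfl fun k _ => by rw [mul_pow]; ring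

theorem exp_shift (s p b : ℕ) (u : ℝ) : Real.exp (-((s : ℝ) * (p + u) / b)) =
    Real.exp (-(((s * p : ℕ) : ℝ) / b)) * Real.exp ((s : ℝ) * (-(u / b))) := by
  rw [← Real.exp_add]
  congr 1
  push_cast
  ring

theorem pos_part {b : ℕ} (hb : 0 < b) (L : List (ℕ × ℕ)) (p : ℕ) (u : ℝ) :
    TP (fun k => (mo L (fun s => loE (s * p) b) k : ℝ)) (-(u / b)) ≤ NN * EL L b (p + u) := by
  induction L with
  | nil => simp [mo, TP, EL]
  | cons t L ih =>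
    obtain ⟨g, s⟩ := t
    have e : (fun k => (mo ((g, s) :: L) (fun s => loE (s * p) b) k : ℝ)) =
        fun k => ((g : ℝ) * (loE (s * p) b : ℝ)) * (s : ℝ) ^ k +
          (mo L (fun s => loE (s * p) b) k : ℝ) := by
      funext k; rw [mo_cons]; push_cast; ring
    rw [e, TP_add, TP_mul, EL_cons, mul_add]
    refine add_le_add ?_ ih
    simp only
    rw [exp_shift]
    have hN := NN_pos
    have h1 : (loE (s * p) b : ℝ) ≤ NN * Real.exp (-(((s * p : ℕ) : ℝ) / b)) := by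
      have := loE_spec hb (s * p)
      rw [div_le_iff₀ hN] at this
      linarith
    have h2 : TS 8 ((s : ℝ) * (-(u / b))) ≤ Real.exp ((s : ℝ) * (-(u / b))) :=
      TS_le_exp (by decide) _
    calc (g : ℝ) * (loE (s * p) b : ℝ) * TS 8 ((s : ℝ) * (-(u / b))) ≤
          (g : ℝ) * (loE (s * p) b : ℝ) * Real.exp ((s : ℝ) * (-(u / b))) :=
          mul_le_mul_of_nonneg_left h2 (by positivity)
      _ ≤ (g : ℝ) * (NN * Real.exp (-(((s * p : ℕ) : ℝ) / b))) *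
          Real.exp ((s : ℝ) * (-(u / b))) := by gcongr
      _ = _ := by ring

theorem neg_part {b : ℕ} (hb : 0 < b) (L : List (ℕ × ℕ)) (p w : ℕ) {u : ℝ} (hu : |u| ≤ w) :
    NN * EL L b (p + u) ≤ TP (fun k => (mo L (fun s => hiE (s * p) b) k : ℝ)) (-(u / b)) +
      (-(u / b)) ^ 8 / 40320 * (mo8 L (fun s => hiE (s * p) b) w b : ℝ) := by
  induction L with
  | nil => simp [mo, mo8, TP, EL]
  | cons t L ih =>
    obtain ⟨g, s⟩ := t
    have e : (fun k => (mo ((g, s) :: L) (fun s => hiE (s * p) b) k : ℝ)) =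
        fun k => ((g : ℝ) * (hiE (s * p) b : ℝ)) * (s : ℝ) ^ k +
          (mo L (fun s => hiE (s * p) b) k : ℝ) := by
      funext k; rw [mo_cons]; push_cast; ring
    rw [e, TP_add, TP_mul, EL_cons, mul_add, mo8_cons]
    have hN := NN_pos
    have hbr : (0 : ℝ) < b := by exact_mod_cast hb
    have h1 : NN * Real.exp (-(((s * p : ℕ) : ℝ) / b)) ≤ (hiE (s * p) b : ℝ) := by
      have := hiE_spec hb (s * p)
      rw [le_div_iff₀ hN] at this
      linarith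
    have hV : (s : ℝ) * (-(u / b)) ≤ ((s * w / b : ℕ) : ℝ) + 1 := by
      have h3 : (s : ℝ) * (-(u / b)) ≤ (s : ℝ) * w / b := by
        have : -u ≤ w := (neg_le_abs u).trans hu
        rw [show (s : ℝ) * (-(u / b)) = (s : ℝ) * (-u) / b by ring]
        gcongr
      have h4 : ((s : ℝ) * w / b) < ((s * w / b : ℕ) : ℝ) + 1 := by
        rw [div_lt_iff₀ hbr]
        have := Nat.lt_div_mul_add (a := s * w) hb
        have h5 : s * w < (s * w / b + 1) * b := by rw [add_mul, one_mul]; exact this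
        exact_mod_cast h5
      linarith
    have hκ : Real.exp (((s * w / b : ℕ) : ℝ) + 1) ≤ (3 : ℝ) ^ (s * w / b + 1) := by
      rw [show ((s * w / b : ℕ) : ℝ) + 1 = ((s * w / b + 1 : ℕ) : ℝ) * 1 by push_cast; ring,
        Real.exp_nat_mul]
      exact pow_le_pow_left₀ (Real.exp_pos _).le (by linarith [Real.exp_one_lt_d9]) _
    have h2 := exp_le_TS (n := 8) (by decide) hV hκ (one_le_pow₀ (by norm_num))
    have e8 : ((8 : ℕ).factorial : ℝ) = 40320 := by norm_num [Nat.factorial]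
    rw [e8] at h2
    have h6 : (NN : ℝ) * ((g : ℝ) * Real.exp (-((s : ℝ) * (p + u) / b))) ≤
        (g : ℝ) * (hiE (s * p) b : ℝ) * (TS 8 ((s : ℝ) * (-(u / b))) +
          (3 : ℝ) ^ (s * w / b + 1) * (((s : ℝ) * (-(u / b))) ^ 8 / 40320)) := by
      rw [exp_shift]
      calc (NN : ℝ) * ((g : ℝ) * (Real.exp (-(((s * p : ℕ) : ℝ) / b)) *
            Real.exp ((s : ℝ) * (-(u / b))))) =
            (g : ℝ) * (NN * Real.exp (-(((s * p : ℕ) : ℝ) / b))) *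
              Real.exp ((s : ℝ) * (-(u / b))) := by ring
        _ ≤ (g : ℝ) * (hiE (s * p) b : ℝ) * Real.exp ((s : ℝ) * (-(u / b))) := by gcongr
        _ ≤ _ := mul_le_mul_of_nonneg_left h2 (by positivity)
    have h7 := add_le_add h6 ih
    refine h7.trans (le_of_eq ?_)
    push_cast
    ring

/-- `|x - y|` -/
noncomputable def ab (x y : ℕ) : ℕ := (x - y) + (y - x)

theorem ab_cast (x y : ℕ) : (ab x y : ℝ) = |(x : ℝ) - y| := by
  unfold ab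
  rcases le_total x y with h | h
  · rw [Nat.sub_eq_zero_of_le h, zero_add, Nat.cast_sub h, abs_sub_comm,
      abs_of_nonneg (sub_nonneg.2 (by exact_mod_cast h))]
  · rw [Nat.sub_eq_zero_of_le h, add_zero, Nat.cast_sub h,
      abs_of_nonneg (sub_nonneg.2 (by exact_mod_cast h))]

/-- the error coefficient -/
noncomputable def errc (b w : ℕ) (mp mn : ℕ → ℕ) (m8 : ℕ) : ℕ :=
  6720 * b ^ 5 * ab (mp 3) (mn 3) * w + 1680 * b ^ 4 * ab (mp 4) (mn 4) * w ^ 2 +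
    336 * b ^ 3 * ab (mp 5) (mn 5) * w ^ 3 + 56 * b ^ 2 * ab (mp 6) (mn 6) * w ^ 4 +
    8 * b * ab (mp 7) (mn 7) * w ^ 5 + m8 * w ^ 6

/-- the test -/
noncomputable def test (w A0 A1 P N : ℕ) : Bool :=
  Nat.blt (A1 * w + (N - P) * w ^ 2) A0 || (Nat.blt N P && Nat.blt (A1 ^ 2) (4 * (P - N) * A0))

noncomputable def cellOK (Lp Ln : List (ℕ × ℕ)) (b p w : ℕ) : Bool :=
  test w (40320 * b ^ 8 * (mo Lp (fun s => loE (s * p) b) 0 - mo Ln (fun s => hiE (s * p) b) 0))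
    (40320 * b ^ 7 * ab (mo Lp (fun s => loE (s * p) b) 1) (mo Ln (fun s => hiE (s * p) b) 1))
    (20160 * b ^ 6 * mo Lp (fun s => loE (s * p) b) 2)
    (20160 * b ^ 6 * mo Ln (fun s => hiE (s * p) b) 2 +
      errc b w (mo Lp (fun s => loE (s * p) b)) (mo Ln (fun s => hiE (s * p) b))
        (mo8 Ln (fun s => hiE (s * p) b) w b))

theorem blt_iff (a b : ℕ) : Nat.blt a b = true ↔ a < b := by
  simp [Nat.blt]

/-- the quadratic test -/
theorem quad_pos {w A0 A1 P N : ℕ} (h : test w A0 A1 P N = true) {u a1 : ℝ} (hu : |u| ≤ w)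
    (ha : |a1| = A1) : 0 < (A0 : ℝ) - a1 * u + ((P : ℝ) - N) * u ^ 2 := by
  have hu2 : u ^ 2 ≤ (w : ℝ) ^ 2 := by rw [← sq_abs]; exact pow_le_pow_left₀ (abs_nonneg _) hu 2
  unfold test at h
  rw [Bool.or_eq_true, Bool.and_eq_true, blt_iff, blt_iff, blt_iff] at h
  rcases h with h | ⟨h1, h2⟩
  · have h3 : ((A1 * w + (N - P) * w ^ 2 : ℕ) : ℝ) < (A0 : ℝ) := by exact_mod_cast h
    push_cast at h3
    have h4 : a1 * u ≤ A1 * w := by
      calc a1 * u ≤ |a1 * u| := le_abs_self _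
        _ = |a1| * |u| := abs_mul _ _
        _ ≤ A1 * w := by rw [ha]; gcongr
    have h5 : -(((N - P : ℕ) : ℝ) * (w : ℝ) ^ 2) ≤ ((P : ℝ) - N) * u ^ 2 := by
      rcases le_total N P with h6 | h6
      · rw [Nat.sub_eq_zero_of_le h6]
        have : (N : ℝ) ≤ P := by exact_mod_cast h6
        have h7 : 0 ≤ ((P : ℝ) - N) * u ^ 2 := mul_nonneg (by linarith) (sq_nonneg u)
        simpa using h7
      · rw [Nat.cast_sub h6]
        have : (P : ℝ) ≤ N := by exact_mod_cast h6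
        nlinarith
    linarith
  · have h3 : (N : ℝ) < P := by exact_mod_cast h1
    have h4 : ((A1 ^ 2 : ℕ) : ℝ) < ((4 * (P - N) * A0 : ℕ) : ℝ) := by exact_mod_cast h2
    push_cast [Nat.cast_sub h1.le] at h4
    rw [← ha, sq_abs] at h4
    have h5 : 0 < 4 * ((P : ℝ) - N) *
        ((A0 : ℝ) - a1 * u + ((P : ℝ) - N) * u ^ 2) := by
      have : 4 * ((P : ℝ) - N) * ((A0 : ℝ) - a1 * u + ((P : ℝ) - N) * u ^ 2) =
          (2 * ((P : ℝ) - N) * u - a1) ^ 2 + (4 * ((P : ℝ) - N) * A0 - a1 ^ 2) := by ring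
      rw [this]
      have := sq_nonneg (2 * ((P : ℝ) - N) * u - a1)
      linarith
    exact (mul_pos_iff_of_pos_left (by linarith)).1 h5

theorem term_bd {c D u w : ℝ} (hc : 0 ≤ c) (hu : |u| ≤ w) (k : ℕ) :
    -(c * |D| * w ^ k * u ^ 2) ≤ c * D * (-u) ^ (k + 2) := by
  have h1 : |c * D * (-u) ^ (k + 2)| ≤ c * |D| * w ^ k * u ^ 2 := by
    rw [abs_mul, abs_mul, abs_pow, abs_neg, abs_of_nonneg hc, pow_add, sq_abs, ← mul_assoc]
    gcongr
  exact neg_le_of_abs_le h1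

theorem cell_pos {Lp Ln : List (ℕ × ℕ)} {b p w : ℕ} (hb : 0 < b)
    (h : cellOK Lp Ln b p w = true) {u : ℝ} (hu : |u| ≤ w) :
    EL Ln b (p + u) < EL Lp b (p + u) := by
  have hbr : (0 : ℝ) < b := by exact_mod_cast hb
  have hN := NN_pos
  have hp := pos_part hb Lp p u
  have hn := neg_part hb Ln p w hu
  unfold cellOK at h
  set mp : ℕ → ℕ := mo Lp (fun s => loE (s * p) b) with hmp
  set mn : ℕ → ℕ := mo Ln (fun s => hiE (s * p) b) with hmn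
  set m8 : ℕ := mo8 Ln (fun s => hiE (s * p) b) w b with hm8
  set D : ℕ → ℝ := fun k => (mp k : ℝ) - mn k with hD
  have ha1 : |40320 * (b : ℝ) ^ 7 * D 1| = ((40320 * b ^ 7 * ab (mp 1) (mn 1) : ℕ) : ℝ) := by
    rw [abs_mul, abs_of_nonneg (by positivity)]
    push_cast [ab_cast]
    rfl
  have hq := quad_pos h hu ha1
  -- the value of the difference
  have hdiff : TP (fun k => (mp k : ℝ)) (-(u / b)) - TP (fun k => (mn k : ℝ)) (-(u / b)) -
      (-(u / b)) ^ 8 / 40320 * (m8 : ℝ) ≤ NN * (EL Lp b (p + u) - EL Ln b (p + u)) := by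
    linarith
  have hmul : 40320 * (b : ℝ) ^ 8 * (TP (fun k => (mp k : ℝ)) (-(u / b)) -
      TP (fun k => (mn k : ℝ)) (-(u / b)) - (-(u / b)) ^ 8 / 40320 * (m8 : ℝ)) =
      40320 * (b : ℝ) ^ 8 * D 0 + 40320 * (b : ℝ) ^ 7 * D 1 * (-u) +
        20160 * (b : ℝ) ^ 6 * D 2 * u ^ 2 + 6720 * (b : ℝ) ^ 5 * D 3 * (-u) ^ (1 + 2) +
        1680 * (b : ℝ) ^ 4 * D 4 * (-u) ^ (2 + 2) + 336 * (b : ℝ) ^ 3 * D 5 * (-u) ^ (3 + 2) +
        56 * (b : ℝ) ^ 2 * D 6 * (-u) ^ (4 + 2) + 8 * (b : ℝ) * D 7 * (-u) ^ (5 + 2) -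
        m8 * u ^ 8 := by
    unfold TP
    simp only [sum_range_succ, sum_range_zero, Nat.factorial, hD]
    push_cast
    field_simp
    ring
  have hA0 : ((40320 * b ^ 8 * (mp 0 - mn 0) : ℕ) : ℝ) ≤ 40320 * (b : ℝ) ^ 8 * D 0 ∨
      ((40320 * b ^ 8 * (mp 0 - mn 0) : ℕ) : ℝ) = 0 := by
    rcases le_total (mn 0) (mp 0) with h0 | h0
    · left
      push_cast [Nat.cast_sub h0]
      exact le_of_eq rfl
    · right
      rw [Nat.sub_eq_zero_of_le h0]; simp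
  have hA0' : ((40320 * b ^ 8 * (mp 0 - mn 0) : ℕ) : ℝ) ≤ 40320 * (b : ℝ) ^ 8 * D 0 := by
    rcases hA0 with h0 | h0
    · exact h0
    · exfalso
      have := quad_pos h (u := 0) (by simp) ha1
      rw [h0] at this
      simp at this
  have t3 := term_bd (c := 6720 * (b : ℝ) ^ 5) (D := D 3) (by positivity) hu 1
  have t4 := term_bd (c := 1680 * (b : ℝ) ^ 4) (D := D 4) (by positivity) hu 2
  have t5 := term_bd (c := 336 * (b : ℝ) ^ 3) (D := D 5) (by positivity) hu 3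
  have t6 := term_bd (c := 56 * (b : ℝ) ^ 2) (D := D 6) (by positivity) hu 4
  have t7 := term_bd (c := 8 * (b : ℝ)) (D := D 7) (by positivity) hu 5
  have t8 : (m8 : ℝ) * u ^ 8 ≤ m8 * (w : ℝ) ^ 6 * u ^ 2 := by
    have h1 : u ^ 6 ≤ (w : ℝ) ^ 6 := by
      rw [← Even.pow_abs (by decide : Even 6)]
      exact pow_le_pow_left₀ (abs_nonneg _) hu 6
    have h2 : (0 : ℝ) ≤ u ^ 2 := sq_nonneg u
    calc (m8 : ℝ) * u ^ 8 = m8 * (u ^ 6 * u ^ 2) := by ring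
      _ ≤ m8 * ((w : ℝ) ^ 6 * u ^ 2) := by gcongr
      _ = _ := by ring
  have herr : ((errc b w mp mn m8 : ℕ) : ℝ) = 6720 * (b : ℝ) ^ 5 * |D 3| * w +
      1680 * (b : ℝ) ^ 4 * |D 4| * w ^ 2 + 336 * (b : ℝ) ^ 3 * |D 5| * w ^ 3 +
      56 * (b : ℝ) ^ 2 * |D 6| * w ^ 4 + 8 * (b : ℝ) * |D 7| * w ^ 5 + m8 * w ^ 6 := by
    unfold errc
    push_cast [ab_cast]
    rfl
  have hQ : 0 < 40320 * (b : ℝ) ^ 8 * (TP (fun k => (mp k : ℝ)) (-(u / b)) -
      TP (fun k => (mn k : ℝ)) (-(u / b)) - (-(u / b)) ^ 8 / 40320 * (m8 : ℝ)) := by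
    rw [hmul]
    have hP : ((20160 * b ^ 6 * mp 2 : ℕ) : ℝ) - ((20160 * b ^ 6 * mn 2 +
        errc b w mp mn m8 : ℕ) : ℝ) = 20160 * (b : ℝ) ^ 6 * D 2 - ((errc b w mp mn m8 : ℕ) : ℝ) := by
      push_cast
      simp only [hD]
      ring
    rw [hP, herr] at hq
    generalize 40320 * (b : ℝ) ^ 8 * D 0 = x0 at hA0' ⊢
    generalize ((40320 * b ^ 8 * (mp 0 - mn 0) : ℕ) : ℝ) = y0 at hA0' hq
    generalize 40320 * (b : ℝ) ^ 7 * D 1 = x1 at hq ⊢
    generalize 20160 * (b : ℝ) ^ 6 * D 2 = x2 at hq ⊢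
    generalize 6720 * (b : ℝ) ^ 5 * D 3 * (-u) ^ (1 + 2) = x3 at t3 ⊢
    generalize 1680 * (b : ℝ) ^ 4 * D 4 * (-u) ^ (2 + 2) = x4 at t4 ⊢
    generalize 336 * (b : ℝ) ^ 3 * D 5 * (-u) ^ (3 + 2) = x5 at t5 ⊢
    generalize 56 * (b : ℝ) ^ 2 * D 6 * (-u) ^ (4 + 2) = x6 at t6 ⊢
    generalize 8 * (b : ℝ) * D 7 * (-u) ^ (5 + 2) = x7 at t7 ⊢
    generalize (m8 : ℝ) * u ^ 8 = x8 at t8 ⊢
    generalize 6720 * (b : ℝ) ^ 5 * |D 3| = z3 at t3 hq
    generalize 1680 * (b : ℝ) ^ 4 * |D 4| = z4 at t4 hq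
    generalize 336 * (b : ℝ) ^ 3 * |D 5| = z5 at t5 hq
    generalize 56 * (b : ℝ) ^ 2 * |D 6| = z6 at t6 hq
    generalize 8 * (b : ℝ) * |D 7| = z7 at t7 hq
    have key : x2 * u ^ 2 - (z3 * (w : ℝ) ^ 1 * u ^ 2 + z4 * (w : ℝ) ^ 2 * u ^ 2 +
        z5 * (w : ℝ) ^ 3 * u ^ 2 + z6 * (w : ℝ) ^ 4 * u ^ 2 + z7 * (w : ℝ) ^ 5 * u ^ 2 +
        m8 * (w : ℝ) ^ 6 * u ^ 2) = (x2 - (z3 * w + z4 * w ^ 2 + z5 * w ^ 3 + z6 * w ^ 4 +
          z7 * w ^ 5 + m8 * w ^ 6)) * u ^ 2 := by ring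
    linarith
  have hQ2 : 0 < TP (fun k => (mp k : ℝ)) (-(u / b)) -
      TP (fun k => (mn k : ℝ)) (-(u / b)) - (-(u / b)) ^ 8 / 40320 * (m8 : ℝ) :=
    (mul_pos_iff_of_pos_left (by positivity)).1 hQ
  have h9 : 0 < NN * (EL Lp b (p + u) - EL Ln b (p + u)) := lt_of_lt_of_le hQ2 hdiff
  have h10 := (mul_pos_iff_of_pos_left hN).1 h9
  linarith

end Pool.Agent.Helper26.LPC
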