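import Pool.Agent.Helper26.LPC.Cert

/-!
Project LP, numeric certificates: the value of the gain.
-/

set_option autoImplicit false

namespace Pool.Agent.Helper26.LPC

open Set Filter Topology
open Pool.Agent.Helper79.LP

/-- `∑_r (∑_k v_rk / α_k ^ m) ²` -/
def sq0 {R K : ℕ} (α : Fin K → ℚ) (v : Fin R → Fin K → ℚ) (m : ℕ) : ℚ :=
  (List.ofFn fun r => (List.ofFn fun k => v r k / α k ^ m).sum ^ 2).sum

/-- the value at `0` -/
def val0 {R K : ℕ} (α : Fin K → ℚ) (v : Fin R → Fin K → ℚ) (m : ℕ) : ℚ :=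
  ((TL α v m).map fun t => t.1).sum

theorem QL_at_zero (L : List (ℚ × ℚ)) : QL L 0 = (((L.map fun t => t.1).sum : ℚ) : ℝ) := by
  induction L with
  | nil => simp [QL]
  | cons t L ih => rw [QL_cons, ih]; simp

theorem gain_ge {R K : ℕ} {α : Fin K → ℚ} {v : Fin R → Fin K → ℚ} {m : ℕ} (hα : ∀ k, 0 < α k)
    {S F : ℚ} (hS : S ≤ sq0 α v m) (hF : val0 α v m ≤ F) :
    Real.pi ^ m * (S : ℝ) - (F : ℝ) ≤
      lpGain (2 * m) (fun k => (α k : ℝ)) (fun r k => (v r k : ℝ)) := by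
  unfold lpGain
  rw [lpF_eq α v m hα, QL_at_zero]
  have h1 : ((val0 α v m : ℚ) : ℝ) ≤ (F : ℝ) := by exact_mod_cast hF
  have h2 : (S : ℝ) ≤ ((sq0 α v m : ℚ) : ℝ) := by exact_mod_cast hS
  have e1 : (((2 * m : ℕ) : ℝ)) / 2 = (m : ℝ) := by push_cast; ring
  have e2 : ∀ k, (α k : ℝ) ^ (-((2 * m : ℕ) : ℝ) / 2) = 1 / (α k : ℝ) ^ m := by
    intro k
    have hk : (0 : ℝ) < α k := by exact_mod_cast hα k
    rw [show -((2 * m : ℕ) : ℝ) / 2 = -(m : ℝ) by push_cast; ring, Real.rpow_neg hk.le,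
      Real.rpow_natCast, one_div]
  have e3 : ((sq0 α v m : ℚ) : ℝ) =
      ∑ r, (∑ k, (v r k : ℝ) * (α k : ℝ) ^ (-((2 * m : ℕ) : ℝ) / 2)) ^ 2 := by
    have e4 : sq0 α v m = ∑ r, (∑ k, v r k / α k ^ m) ^ 2 := by
      unfold sq0
      rw [List.sum_ofFn]
      refine Finset.sum_congr rfl fun r _ => ?_
      rw [List.sum_ofFn]
    rw [e4]
    push_cast
    refine Finset.sum_congr rfl fun r _ => ?_
    congr 1
    refine Finset.sum_congr rfl fun k _ => ?_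
    have := e2 k
    push_cast at this
    rw [this]
    ring
  rw [e1, Real.rpow_natCast, ← e3]
  have h3 : Real.pi ^ m * (S : ℝ) ≤ Real.pi ^ m * ((sq0 α v m : ℚ) : ℝ) :=
    mul_le_mul_of_nonneg_left h2 (by positivity)
  have h4 : ((val0 α v m : ℚ) : ℝ) = ((((TL α v m).map fun t => t.1).sum : ℚ) : ℝ) := rfl
  rw [← h4]
  linarith

end Pool.Agent.Helper26.LPC
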