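import Pool.Agent.Helper26.LPC.D2
import Pool.Agent.Helper26.LPC.Val

/-! Project LP: the gain of the certificate for `d = 2`. -/

set_option autoImplicit false

namespace Pool.Agent.Helper26.LPC.D2

open Pool.Agent.Helper79.LP

theorem hS : (326331938 / 1000000000 : ℚ) ≤ sq0 al vv 1 := by decide +kernel

theorem hF : val0 al vv 1 ≤ (517911381 / 1000000000 : ℚ) := by decide +kernel

theorem gain : Real.pi * (326331938 / 1000000000) - 517911381 / 1000000000 ≤
    lpGain 2 (fun k => (al k : ℝ)) (fun r k => (vv r k : ℝ)) := by
  have h := gain_ge (m := 1) hal hS hF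
  rw [pow_one] at h
  push_cast at h
  exact h

end Pool.Agent.Helper26.LPC.D2
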