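import Pool.Agent.Helper26.LPC.D8
import Pool.Agent.Helper26.LPC.Val

/-! Project LP: the gain of the certificate for `d = 8`. -/

set_option autoImplicit false

namespace Pool.Agent.Helper26.LPC.D8

open Pool.Agent.Helper79.LP

theorem hS : (589993225388 / 10000000000000 : ℚ) ≤ sq0 al vv 4 := by decide +kernel

theorem hF : val0 al vv 4 ≤ (39051724180 / 100000000000 : ℚ) := by decide +kernel

theorem gain : Real.pi ^ 4 * (589993225388 / 10000000000000) - 39051724180 / 100000000000 ≤
    lpGain 8 (fun k => (al k : ℝ)) (fun r k => (vv r k : ℝ)) := by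
  have h := gain_ge (m := 4) hal hS hF
  push_cast at h
  exact h

end Pool.Agent.Helper26.LPC.D8
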