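import Pool.Agent.Helper26.LPC.Taylor

/-!
Project LP, numeric certificates: fixed point enclosures of `exp (-(a/b))`, in natural numbers.
-/

set_option autoImplicit false

namespace Pool.Agent.Helper26.LPC

open Finset Set

/-- the scale `2 ^ 128` -/
def NN : ℕ := 340282366920938463463374607431768211456

/-- numerator of a Taylor sum -/
noncomputable def tnum (a d m : ℕ) : ℕ :=
  Nat.rec 1 (fun k ih => (k + 1) * d * ih + a ^ (k + 1)) m

noncomputable def sqLo (x n : ℕ) : ℕ := Nat.rec x (fun _ ih => ih ^ 2 / NN) n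

noncomputable def sqHi (x n : ℕ) : ℕ := Nat.rec x (fun _ ih => ih ^ 2 / NN + 1) n

/-- lower bound for `NN * exp (-(a/b))` -/
noncomputable def loE (a b : ℕ) : ℕ :=
  bif Nat.ble a (b * 4096) then
    sqLo (NN * ((b * 4096) ^ 8 * 322560) / (tnum a (b * 4096) 7 * (b * 4096 * 64) + a ^ 8 * 9)) 12
  else 0

/-- upper bound for `NN * exp (-(a/b))` -/
noncomputable def hiE (a b : ℕ) : ℕ :=
  sqHi (NN * ((b * 4096) ^ 8 * 40320) / tnum a (b * 4096) 8 + 1) 12

theorem tnum_zero (a d : ℕ) : tnum a d 0 = 1 := rfl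

theorem tnum_succ (a d m : ℕ) : tnum a d (m + 1) = (m + 1) * d * tnum a d m + a ^ (m + 1) := rfl

theorem tnum_eq {a d : ℕ} (hd : 0 < d) (m : ℕ) :
    (tnum a d m : ℝ) = TS (m + 1) ((a : ℝ) / d) * ((d : ℝ) ^ m * (m.factorial : ℝ)) := by
  have hd' : (d : ℝ) ≠ 0 := by exact_mod_cast hd.ne'
  induction m with
  | zero => rw [tnum_zero]; simp [TS]
  | succ m ih =>
    rw [tnum_succ, TS_succ]
    push_cast
    rw [ih, Nat.factorial_succ]
    push_cast
    have h2 : (m.factorial : ℝ) ≠ 0 := by exact_mod_cast m.factorial_ne_zero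
    have h3 : ((m : ℝ) + 1) ≠ 0 := by positivity
    rw [div_pow]
    have e : (a : ℝ) ^ (m + 1) / (d : ℝ) ^ (m + 1) / (((m : ℝ) + 1) * (m.factorial : ℝ)) *
        ((d : ℝ) ^ (m + 1) * (((m : ℝ) + 1) * (m.factorial : ℝ))) = (a : ℝ) ^ (m + 1) := by
      field_simp
    linear_combination -e

theorem tnum_pos (a d m : ℕ) (hd : 0 < d) : 0 < tnum a d m := by
  induction m with
  | zero => rw [tnum_zero]; exact one_pos
  | succ m ih => rw [tnum_succ]; positivity

theorem NN_pos : (0 : ℝ) < (NN : ℝ) := by norm_num [NN]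

theorem sqLo_spec {x : ℕ} {t : ℝ} (h : (x : ℝ) / NN ≤ t) (n : ℕ) :
    (sqLo x n : ℝ) / NN ≤ t ^ (2 ^ n) := by
  induction n with
  | zero => simpa [sqLo] using h
  | succ n ih =>
    have e : sqLo x (n + 1) = sqLo x n ^ 2 / NN := rfl
    rw [e, pow_succ 2 n, pow_mul]
    have h0 : 0 ≤ (sqLo x n : ℝ) / NN := by have := NN_pos; positivity
    calc ((sqLo x n ^ 2 / NN : ℕ) : ℝ) / NN ≤ ((sqLo x n ^ 2 : ℕ) : ℝ) / NN / NN :=
          div_le_div_of_nonneg_right Nat.cast_div_le NN_pos.le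
      _ = ((sqLo x n : ℝ) / NN) ^ 2 := by push_cast; rw [div_pow, sq (NN : ℝ), div_div]
      _ ≤ (t ^ 2 ^ n) ^ 2 := pow_le_pow_left₀ h0 ih 2

theorem sqHi_spec {x : ℕ} {t : ℝ} (h0 : 0 ≤ t) (h : t ≤ (x : ℝ) / NN) (n : ℕ) :
    t ^ (2 ^ n) ≤ (sqHi x n : ℝ) / NN := by
  induction n with
  | zero => simpa [sqHi] using h
  | succ n ih =>
    have e : sqHi x (n + 1) = sqHi x n ^ 2 / NN + 1 := rfl
    rw [e, pow_succ 2 n, pow_mul]
    have hN := NN_pos
    have h1 : ((sqHi x n ^ 2 : ℕ) : ℝ) / NN ≤ ((sqHi x n ^ 2 / NN + 1 : ℕ) : ℝ) := by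
      rw [div_le_iff₀ hN]
      have h2 : sqHi x n ^ 2 < (sqHi x n ^ 2 / NN + 1) * NN := by
        have := Nat.div_add_mod (sqHi x n ^ 2) NN
        have h3 := Nat.mod_lt (sqHi x n ^ 2) (show 0 < NN by norm_num [NN])
        nlinarith
      exact_mod_cast h2.le
    calc (t ^ 2 ^ n) ^ 2 ≤ ((sqHi x n : ℝ) / NN) ^ 2 := pow_le_pow_left₀ (by positivity) ih 2
      _ = ((sqHi x n ^ 2 : ℕ) : ℝ) / NN / NN := by push_cast; rw [div_pow, sq (NN : ℝ), div_div]
      _ ≤ _ := div_le_div_of_nonneg_right h1 hN.le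

theorem exp_split (a b : ℕ) : Real.exp (-((a : ℝ) / b)) =
    Real.exp (-((a : ℝ) / ((b * 4096 : ℕ) : ℝ))) ^ (2 ^ 12) := by
  rw [← Real.exp_nat_mul]
  congr 1
  push_cast
  rcases Nat.eq_zero_or_pos b with rfl | hb
  · simp
  · have : (b : ℝ) ≠ 0 := by exact_mod_cast hb.ne'
    field_simp

theorem loE_spec {b : ℕ} (hb : 0 < b) (a : ℕ) : (loE a b : ℝ) / NN ≤ Real.exp (-((a : ℝ) / b)) := by
  unfold loE
  rcases h : Nat.ble a (b * 4096) with _ | _
  · simp only [cond_false, Nat.cast_zero, zero_div]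
    exact (Real.exp_pos _).le
  · simp only [cond_true]
    have hle : a ≤ b * 4096 := Nat.le_of_ble_eq_true h
    rw [exp_split]
    refine sqLo_spec ?_ 12
    set d := b * 4096 with hd
    have hd0 : 0 < d := by positivity
    have hdr : (0 : ℝ) < d := by exact_mod_cast hd0
    have hN := NN_pos
    set z : ℝ := (a : ℝ) / d with hz
    have hz0 : 0 ≤ z := by positivity
    have hz1 : z ≤ 1 := by
      rw [hz, div_le_one hdr]; exact_mod_cast hle
    have h1 := Real.exp_bound' hz0 hz1 (n := 8) (by norm_num)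
    have h2 : Real.exp z * ((d : ℝ) ^ 8 * 322560) ≤
        ((tnum a d 7 * (d * 64) + a ^ 8 * 9 : ℕ) : ℝ) := by
      push_cast
      rw [tnum_eq hd0 7]
      have e1 : z ^ 8 * (d : ℝ) ^ 8 = (a : ℝ) ^ 8 := by
        rw [hz, div_pow]; field_simp
      have e2 : ∑ m ∈ Finset.range 8, z ^ m / (m.factorial : ℝ) = TS (7 + 1) z := rfl
      rw [e2] at h1
      have e3 : ((7 : ℕ).factorial : ℝ) = 5040 := by norm_num [Nat.factorial]
      have e4 : ((8 : ℕ).factorial : ℝ) = 40320 := by norm_num [Nat.factorial]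
      rw [e3]
      rw [e4] at h1
      have h3 := mul_le_mul_of_nonneg_right h1 (show (0 : ℝ) ≤ (d : ℝ) ^ 8 * 322560 by positivity)
      refine h3.trans (le_of_eq ?_)
      push_cast
      rw [← e1]
      ring
    have hpos : (0 : ℝ) < ((tnum a d 7 * (d * 64) + a ^ 8 * 9 : ℕ) : ℝ) :=
      lt_of_lt_of_le (by positivity) h2
    rw [div_le_iff₀ hN, Real.exp_neg]
    calc ((NN * (d ^ 8 * 322560) / (tnum a d 7 * (d * 64) + a ^ 8 * 9) : ℕ) : ℝ) ≤
          ((NN * (d ^ 8 * 322560) : ℕ) : ℝ) / ((tnum a d 7 * (d * 64) + a ^ 8 * 9 : ℕ) : ℝ) :=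
          Nat.cast_div_le
      _ ≤ (Real.exp z)⁻¹ * NN := by
        rw [div_le_iff₀ hpos]
        have h4 := mul_le_mul_of_nonneg_left h2
          (show (0 : ℝ) ≤ (Real.exp z)⁻¹ * NN by positivity)
        refine le_trans (le_of_eq ?_) h4
        push_cast
        have : Real.exp z ≠ 0 := (Real.exp_pos z).ne'
        field_simp

theorem hiE_spec {b : ℕ} (hb : 0 < b) (a : ℕ) : Real.exp (-((a : ℝ) / b)) ≤ (hiE a b : ℝ) / NN := by
  unfold hiE
  rw [exp_split]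
  refine sqHi_spec (Real.exp_pos _).le ?_ 12
  set d := b * 4096 with hd
  have hd0 : 0 < d := by positivity
  have hdr : (0 : ℝ) < d := by exact_mod_cast hd0
  have hN := NN_pos
  set z : ℝ := (a : ℝ) / d with hz
  have hz0 : 0 ≤ z := by positivity
  have h1 : TS (8 + 1) z ≤ Real.exp z := TS_le_exp_of_nonneg 9 hz0
  have hT := tnum_pos a d 8 hd0
  have hTr : (0 : ℝ) < (tnum a d 8 : ℝ) := by exact_mod_cast hT
  have h2 : (tnum a d 8 : ℝ) ≤ Real.exp z * ((d : ℝ) ^ 8 * 40320) := by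
    rw [tnum_eq hd0 8]
    have e4 : ((8 : ℕ).factorial : ℝ) = 40320 := by norm_num [Nat.factorial]
    rw [e4]
    exact mul_le_mul_of_nonneg_right h1 (by positivity)
  rw [le_div_iff₀ hN, Real.exp_neg]
  have h3 : ((NN * (d ^ 8 * 40320) : ℕ) : ℝ) ≤
      ((NN * (d ^ 8 * 40320) / tnum a d 8 + 1 : ℕ) : ℝ) * (tnum a d 8 : ℝ) := by
    have h4 : NN * (d ^ 8 * 40320) < (NN * (d ^ 8 * 40320) / tnum a d 8 + 1) * tnum a d 8 := by
      have := Nat.div_add_mod (NN * (d ^ 8 * 40320)) (tnum a d 8)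
      have h5 := Nat.mod_lt (NN * (d ^ 8 * 40320)) hT
      nlinarith
    exact_mod_cast h4.le
  have h6 : (Real.exp z)⁻¹ * NN * (tnum a d 8 : ℝ) ≤ ((NN * (d ^ 8 * 40320) : ℕ) : ℝ) := by
    have h7 := mul_le_mul_of_nonneg_left h2 (show (0 : ℝ) ≤ (Real.exp z)⁻¹ * NN by positivity)
    refine h7.trans (le_of_eq ?_)
    push_cast
    have : Real.exp z ≠ 0 := (Real.exp_pos z).ne'
    field_simp
  exact le_of_mul_le_mul_right (h6.trans h3) hTr

end Pool.Agent.Helper26.LPC
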