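import Pool.Agent.Helper26.LPC.D2v
import Pool.Agent.Helper26.LPC.D8v
import Pool.Agent.Helper26.LPC.Area
import Pool.Agent.Helper76.LPB.Gam

/-! Project LP: the numerical lower bounds for `d = 2` and `d = 8` (Gaussian certificates). -/

set_option autoImplicit false

open MeasureTheory Set Filter Topology

namespace Pool.Agent.Helper26.LPC

open Pool.Agent.Helper78.LE Pool.Agent.Helper79.LP Pool.Agent.Helper76.LPB

theorem eventually_of_lp {d : ℕ} (hd : 0 < d) {R K : ℕ} {α : Fin K → ℝ} {v : Fin R → Fin K → ℝ}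
    (hα : ∀ k, 0 < α k) {a β δ : ℝ} (ha : 0 < a) (hβ : 0 < β) (hδ : 0 < δ)
    (hβα : ∀ k l, β ≤ α k * α l / (α k + α l))
    (hle : ∀ x : ℝ, 0 < x → lpF d α v x + δ * Real.exp (-(β * x)) ≤ 1 / 2 * EE a x)
    {c : ℝ} (hc : c < 1 / d * Real.log (sphArea d) -
      1 / 2 * (Real.log a + Real.eulerMascheroniConstant) -
          1 / d * (Real.pi / a) ^ ((d : ℝ) / 2) + lpGain d α v) :
    ∀ᶠ N : ℕ in atTop, Vlog d * (N : ℝ) ^ 2 - 1 / d * (N * Real.log N) + c * N ≤ minLog d N := by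
  have h := lp_lower hd α v hα a β δ ha hβ hδ hβα hle _ (sub_pos.2 hc)
  filter_upwards [h] with N hN
  refine le_trans (le_of_eq ?_) hN
  ring

theorem log_103 : Real.log (103 / 100) ≤ 0.029559 := by
  rw [Real.log_le_iff_le_exp (by norm_num)]
  have h := TS_le_exp_of_nonneg 4 (v := 0.029559) (by norm_num)
  refine le_trans ?_ h
  norm_num [TS, Finset.sum_range_succ, Nat.factorial]

theorem log_12 : Real.log (6 / 5) ≤ 0.18232156 := by
  rw [Real.log_le_iff_le_exp (by norm_num)]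
  have h := TS_le_exp_of_nonneg 8 (v := 0.18232156) (by norm_num)
  refine le_trans ?_ h
  norm_num [TS, Finset.sum_range_succ, Nat.factorial]

theorem log_105 : Real.log 105 ≤ 7 * Real.log 2 - 0.1980699 := by
  have e : (105 : ℝ) = 2 ^ 7 * (105 / 128) := by norm_num
  rw [e, Real.log_mul (by norm_num) (by norm_num), Real.log_pow]
  have h1 : Real.log (105 / 128) ≤ -0.1980699 := by
    rw [Real.log_le_iff_le_exp (by norm_num)]
    have h := TS_le_exp (n := 8) (by decide) (-0.1980699)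
    refine le_trans ?_ h
    norm_num [TS, Finset.sum_range_succ, Nat.factorial]
  push_cast
  linarith

theorem two : ∀ᶠ N : ℕ in atTop,
    Vlog 2 * (N : ℝ) ^ 2 - 1 / 2 * (N * Real.log N) + (-0.05563) * N ≤ minLog 2 N := by
  have hα : ∀ k, (0 : ℝ) < (D2.al k : ℝ) := fun k => by exact_mod_cast D2.hal k
  have hβα : ∀ k l, (D2.bb : ℝ) ≤ (D2.al k : ℝ) * (D2.al l : ℝ) / ((D2.al k : ℝ) + D2.al l) :=
    fun k l => by exact_mod_cast D2.hbe k l
  have h := eventually_of_lp (d := 2) (by norm_num) hα (a := (D2.aa : ℝ)) (β := (D2.bb : ℝ))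
    (δ := (D2.dd : ℝ)) (by norm_num [D2.aa]) (by norm_num [D2.bb]) (by norm_num [D2.dd]) hβα
    D2.hle (c := -0.05563) ?_
  · exact_mod_cast h
  · have hg := D2.gain
    have e1 : ((2 : ℕ) : ℝ) / 2 = 1 := by norm_num
    have ea : (D2.aa : ℝ) = 103 / 100 := by norm_num [D2.aa]
    have l4 : Real.log (4 * Real.pi) = 2 * Real.log 2 + Real.log Real.pi := by
      rw [Real.log_mul (by norm_num) Real.pi_ne_zero, show (4 : ℝ) = 2 ^ 2 by norm_num,
        Real.log_pow]
      push_cast; ring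
    rw [e1, Real.rpow_one, ea, sphArea_two, l4]
    have h1 := Real.log_two_gt_d9
    have h2 := log_pi_gt
    have h3 := gamma_lt
    have h4 := log_103
    have h5 := Real.pi_gt_d20
    have h6 := Real.pi_lt_d20
    push_cast
    linarith

theorem eight : ∀ᶠ N : ℕ in atTop,
    Vlog 8 * (N : ℝ) ^ 2 - 1 / 8 * (N * Real.log N) + (-0.47136) * N ≤ minLog 8 N := by
  have hα : ∀ k, (0 : ℝ) < (D8.al k : ℝ) := fun k => by exact_mod_cast D8.hal k
  have hβα : ∀ k l, (D8.bb : ℝ) ≤ (D8.al k : ℝ) * (D8.al l : ℝ) / ((D8.al k : ℝ) + D8.al l) :=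
    fun k l => by exact_mod_cast D8.hbe k l
  have h := eventually_of_lp (d := 8) (by norm_num) hα (a := (D8.aa : ℝ)) (β := (D8.bb : ℝ))
    (δ := (D8.dd : ℝ)) (by norm_num [D8.aa]) (by norm_num [D8.bb]) (by norm_num [D8.dd]) hβα
    D8.hle (c := -0.47136) ?_
  · exact_mod_cast h
  · have hg := D8.gain
    have e1 : ((8 : ℕ) : ℝ) / 2 = (4 : ℕ) := by norm_num
    have ea : (D8.aa : ℝ) = 6 / 5 := by norm_num [D8.aa]
    have l8 : Real.log (32 * Real.pi ^ 4 / 105) =
        5 * Real.log 2 + 4 * Real.log Real.pi - Real.log 105 := by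
      rw [Real.log_div (by positivity) (by norm_num), Real.log_mul (by norm_num) (by positivity),
        show (32 : ℝ) = 2 ^ 5 by norm_num, Real.log_pow, Real.log_pow]
      push_cast; ring
    rw [e1, Real.rpow_natCast, ea, sphArea_eight, l8, div_pow]
    have h1 := Real.log_two_lt_d9
    have h2 := log_pi_gt
    have h3 := gamma_lt
    have h4 := log_12
    have h7 := log_105
    have h6 : Real.pi ^ 4 ≤ 97.4090911 := by
      calc Real.pi ^ 4 ≤ 3.1415926536 ^ 4 :=
            pow_le_pow_left₀ Real.pi_pos.le (by linarith [Real.pi_lt_d20]) 4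
        _ ≤ 97.4090911 := by norm_num
    push_cast
    norm_num
    norm_num at h2 h3 h4 h7 h6 h1 hg
    linarith

end Pool.Agent.Helper26.LPC
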