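import Pool.Agent.Helper26.LPC.Check

/-!
Project LP, numeric certificates: the list of cells and the tail.
-/

set_option autoImplicit false

namespace Pool.Agent.Helper26.LPC

open Finset Set

/-- upper bound of `NN * EL L b x` -/
noncomputable def valHi (L : List (ℕ × ℕ)) (b x : ℕ) : ℕ :=
  List.rec 0 (fun t _ ih => t.1 * hiE (t.2 * x) b + ih) L

/-- lower bound of `NN *` the part of `EL L b x` with exponents at most `sg` -/
noncomputable def valLo (L : List (ℕ × ℕ)) (b sg x : ℕ) : ℕ :=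
  List.rec 0 (fun t _ ih => bif Nat.ble t.2 sg then t.1 * loE (t.2 * x) b + ih else ih) L

noncomputable def allGe (L : List (ℕ × ℕ)) (sg : ℕ) : Bool :=
  List.rec true (fun t _ ih => Nat.ble sg t.2 && ih) L

noncomputable def tailOK (Lp Ln : List (ℕ × ℕ)) (b sg x : ℕ) : Bool :=
  allGe Ln sg && Nat.blt (valHi Ln b x) (valLo Lp b sg x)

/-- the cells `(p, w)` (centre, half width) one after another from `x` on, then the tail -/
noncomputable def run (Lp Ln : List (ℕ × ℕ)) (b sg : ℕ) (cells : List (ℕ × ℕ)) : ℕ → Bool :=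
  List.rec (fun x => tailOK Lp Ln b sg x)
    (fun c _ ih x => Nat.beq c.1 (x + c.2) && (cellOK Lp Ln b c.1 c.2 && ih (c.1 + c.2))) cells

theorem exp_at {b : ℕ} (s x : ℕ) (X : ℝ) : Real.exp (-((s : ℝ) * X / b)) =
    Real.exp (-(((s * x : ℕ) : ℝ) / b)) * Real.exp (-((s : ℝ) * (X - x) / b)) := by
  rw [← Real.exp_add]
  congr 1
  push_cast
  ring

theorem tail_hi {b : ℕ} (hb : 0 < b) (L : List (ℕ × ℕ)) (sg x : ℕ) (h : allGe L sg = true)
    {X : ℝ} (hX : x ≤ X) :
    NN * EL L b X ≤ Real.exp (-((sg : ℝ) * (X - x) / b)) * (valHi L b x : ℝ) := by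
  induction L with
  | nil => simp [EL, valHi]
  | cons t L ih =>
    obtain ⟨g, s⟩ := t
    have e1 : allGe ((g, s) :: L) sg = (Nat.ble sg s && allGe L sg) := rfl
    rw [e1, Bool.and_eq_true] at h
    have hs : sg ≤ s := Nat.le_of_ble_eq_true h.1
    have ih' := ih h.2
    have e2 : valHi ((g, s) :: L) b x = g * hiE (s * x) b + valHi L b x := rfl
    rw [e2, EL_cons, mul_add]
    push_cast
    rw [mul_add]
    refine add_le_add ?_ ih'
    have hN := NN_pos
    have hbr : (0 : ℝ) < b := by exact_mod_cast hb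
    have h1 : NN * Real.exp (-(((s * x : ℕ) : ℝ) / b)) ≤ (hiE (s * x) b : ℝ) := by
      have := hiE_spec hb (s * x)
      rw [le_div_iff₀ hN] at this
      linarith
    have h2 : Real.exp (-((s : ℝ) * (X - x) / b)) ≤ Real.exp (-((sg : ℝ) * (X - x) / b)) := by
      apply Real.exp_le_exp.2
      have h3 : (sg : ℝ) * (X - x) ≤ (s : ℝ) * (X - x) :=
        mul_le_mul_of_nonneg_right (by exact_mod_cast hs) (by linarith)
      have h4 := div_le_div_of_nonneg_right h3 hbr.le
      linarith
    rw [exp_at s x X]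
    calc (NN : ℝ) * ((g : ℝ) * (Real.exp (-(((s * x : ℕ) : ℝ) / b)) *
          Real.exp (-((s : ℝ) * (X - x) / b)))) = (g : ℝ) * (NN *
            Real.exp (-(((s * x : ℕ) : ℝ) / b))) * Real.exp (-((s : ℝ) * (X - x) / b)) := by ring
      _ ≤ (g : ℝ) * (hiE (s * x) b : ℝ) * Real.exp (-((sg : ℝ) * (X - x) / b)) := by gcongr
      _ = _ := by ring

theorem tail_lo {b : ℕ} (hb : 0 < b) (L : List (ℕ × ℕ)) (sg x : ℕ) {X : ℝ} (hX : x ≤ X) :
    Real.exp (-((sg : ℝ) * (X - x) / b)) * (valLo L b sg x : ℝ) ≤ NN * EL L b X := by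
  induction L with
  | nil => simp [EL, valLo]
  | cons t L ih =>
    obtain ⟨g, s⟩ := t
    have e2 : valLo ((g, s) :: L) b sg x =
        bif Nat.ble s sg then g * loE (s * x) b + valLo L b sg x else valLo L b sg x := rfl
    have hN := NN_pos
    have hbr : (0 : ℝ) < b := by exact_mod_cast hb
    rw [e2, EL_cons, mul_add]
    rcases h : Nat.ble s sg with _ | _
    · simp only [cond_false]
      have : 0 ≤ NN * ((g : ℝ) * Real.exp (-((s : ℝ) * X / b))) := by positivity
      linarith
    · simp only [cond_true]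
      have hs : s ≤ sg := Nat.le_of_ble_eq_true h
      push_cast
      rw [mul_add]
      refine add_le_add ?_ ih
      have h1 : (loE (s * x) b : ℝ) ≤ NN * Real.exp (-(((s * x : ℕ) : ℝ) / b)) := by
        have := loE_spec hb (s * x)
        rw [div_le_iff₀ hN] at this
        linarith
      have h2 : Real.exp (-((sg : ℝ) * (X - x) / b)) ≤ Real.exp (-((s : ℝ) * (X - x) / b)) := by
        apply Real.exp_le_exp.2
        have h3 : (s : ℝ) * (X - x) ≤ (sg : ℝ) * (X - x) :=
          mul_le_mul_of_nonneg_right (by exact_mod_cast hs) (by linarith)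
        have h4 := div_le_div_of_nonneg_right h3 hbr.le
        linarith
      rw [exp_at s x X]
      calc Real.exp (-((sg : ℝ) * (X - x) / b)) * ((g : ℝ) * (loE (s * x) b : ℝ)) =
            (g : ℝ) * (loE (s * x) b : ℝ) * Real.exp (-((sg : ℝ) * (X - x) / b)) := by ring
        _ ≤ (g : ℝ) * (NN * Real.exp (-(((s * x : ℕ) : ℝ) / b))) *
            Real.exp (-((s : ℝ) * (X - x) / b)) := by gcongr
        _ = _ := by ring

theorem tail_pos {b : ℕ} (hb : 0 < b) {Lp Ln : List (ℕ × ℕ)} {sg x : ℕ}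
    (h : tailOK Lp Ln b sg x = true) {X : ℝ} (hX : x ≤ X) : EL Ln b X < EL Lp b X := by
  unfold tailOK at h
  rw [Bool.and_eq_true, blt_iff] at h
  have h1 := tail_hi hb Ln sg x h.1 hX
  have h3 := tail_lo hb Lp sg x hX
  have h2 : ((valHi Ln b x : ℕ) : ℝ) < ((valLo Lp b sg x : ℕ) : ℝ) := by exact_mod_cast h.2
  have hN := NN_pos
  have hE : 0 < Real.exp (-((sg : ℝ) * (X - x) / b)) := Real.exp_pos _
  have h4 : NN * EL Ln b X < NN * EL Lp b X :=
    lt_of_le_of_lt h1 (lt_of_lt_of_le (mul_lt_mul_of_pos_left h2 hE) h3)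
  exact lt_of_mul_lt_mul_left h4 hN.le

/-- **the checker is correct** -/
theorem run_pos {b : ℕ} (hb : 0 < b) {Lp Ln : List (ℕ × ℕ)} {sg : ℕ} :
    ∀ (cells : List (ℕ × ℕ)) (x : ℕ), run Lp Ln b sg cells x = true →
      ∀ X : ℝ, x ≤ X → EL Ln b X < EL Lp b X := by
  intro cells
  induction cells with
  | nil =>
    intro x h X hX
    exact tail_pos hb h hX
  | cons c cells ih =>
    obtain ⟨p, w⟩ := c
    intro x h X hX
    have e : run Lp Ln b sg ((p, w) :: cells) x =
        (Nat.beq p (x + w) && (cellOK Lp Ln b p w && run Lp Ln b sg cells (p + w))) := rfl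
    rw [e, Bool.and_eq_true, Bool.and_eq_true] at h
    have hp : p = x + w := Nat.eq_of_beq_eq_true h.1
    rcases le_total X ((p + w : ℕ) : ℝ) with h1 | h1
    · have hu : |X - p| ≤ w := by
        rw [abs_le]
        rw [hp] at h1 ⊢
        push_cast at h1 ⊢
        constructor <;> linarith
      have := cell_pos hb h.2.1 hu
      have e2 : (p : ℝ) + (X - p) = X := by ring
      rwa [e2] at this
    · exact ih (p + w) h.2.2 X h1

/-- a small example -/
theorem run_example : run [(3, 1)] [(2, 1), (0, 2)] 1 1 [(1, 1)] 0 = true := by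
  decide +kernel

end Pool.Agent.Helper26.LPC
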