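import Mathlib

/-!
Project LP (MP_d7f1f6_an), numeric certificates: Taylor bounds for the exponential function.
-/

set_option autoImplicit false

namespace Pool.Agent.Helper26.LPC

open Finset Set

/-- Taylor sums of the exponential function -/
noncomputable def TS (n : ℕ) (v : ℝ) : ℝ := ∑ k ∈ range n, v ^ k / (k.factorial : ℝ)

theorem TS_succ (n : ℕ) (v : ℝ) : TS (n + 1) v = TS n v + v ^ n / (n.factorial : ℝ) := by
  unfold TS
  rw [sum_range_succ]

theorem TS_zero_left (v : ℝ) : TS 0 v = 0 := by simp [TS]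

theorem TS_zero (n : ℕ) : TS (n + 1) 0 = 1 := by
  induction n with
  | zero => simp [TS]
  | succ n ih => rw [TS_succ, ih]; simp

theorem TS_hasDeriv (n : ℕ) (v : ℝ) : HasDerivAt (TS (n + 1)) (TS n v) v := by
  induction n with
  | zero =>
    have h : TS 1 = fun _ => (1 : ℝ) := by funext x; simp [TS]
    rw [TS_zero_left, show 0 + 1 = 1 from rfl, h]
    exact hasDerivAt_const v 1
  | succ n ih =>
    have h : TS (n + 1 + 1) = fun x => TS (n + 1) x + x ^ (n + 1) / ((n + 1).factorial : ℝ) := by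
      funext x; rw [TS_succ]
    rw [h, TS_succ]
    refine ih.add ?_
    have h1 := (hasDerivAt_pow (n + 1) v).div_const ((n + 1).factorial : ℝ)
    have e : ((n + 1 : ℕ) : ℝ) * v ^ (n + 1 - 1) / ((n + 1).factorial : ℝ) =
        v ^ n / (n.factorial : ℝ) := by
      rw [Nat.factorial_succ]
      push_cast
      have h2 : (n.factorial : ℝ) ≠ 0 := by exact_mod_cast n.factorial_ne_zero
      have h3 : ((n : ℝ) + 1) ≠ 0 := by positivity
      field_simp
    rw [e] at h1
    exact h1

/-- alternating remainder -/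
noncomputable def Fr (n : ℕ) (y : ℝ) : ℝ := (-1) ^ n * (Real.exp (-y) - TS n (-y))

theorem Fr_hasDeriv (n : ℕ) (y : ℝ) : HasDerivAt (Fr (n + 1)) (Fr n y) y := by
  have h1 : HasDerivAt (fun x : ℝ => Real.exp (-x)) (-Real.exp (-y)) y := by
    have := (Real.hasDerivAt_exp (-y)).comp y (hasDerivAt_neg y)
    simpa [Function.comp_def] using this
  have h2 : HasDerivAt (fun x : ℝ => TS (n + 1) (-x)) (-TS n (-y)) y := by
    have := (TS_hasDeriv n (-y)).comp y (hasDerivAt_neg y)
    simpa [Function.comp_def] using this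
  have h3 := (h1.sub h2).const_mul ((-1 : ℝ) ^ (n + 1))
  have e : (-1 : ℝ) ^ (n + 1) * (-Real.exp (-y) - -TS n (-y)) = Fr n y := by
    unfold Fr; rw [pow_succ]; ring
  rw [e] at h3
  exact h3

theorem mono_of_deriv {f f' : ℝ → ℝ} (hf : ∀ x, HasDerivAt f (f' x) x)
    (h : ∀ x, 0 ≤ x → 0 ≤ f' x) (h0 : f 0 = 0) : ∀ x, 0 ≤ x → 0 ≤ f x := by
  intro x hx
  have hm : MonotoneOn f (Ici 0) := by
    apply monotoneOn_of_deriv_nonneg (convex_Ici 0)
    · exact fun y _ => (hf y).continuousAt.continuousWithinAt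
    · exact fun y _ => (hf y).differentiableAt.differentiableWithinAt
    · intro y hy
      rw [(hf y).deriv]
      rw [interior_Ici] at hy
      exact h y (le_of_lt hy)
  have := hm (mem_Ici.2 le_rfl) (mem_Ici.2 hx) hx
  rwa [h0] at this

theorem Fr_nonneg (n : ℕ) : ∀ y, 0 ≤ y → 0 ≤ Fr n y := by
  induction n with
  | zero => intro y _; simp [Fr, TS, Real.exp_nonneg]
  | succ n ih =>
    refine mono_of_deriv (Fr_hasDeriv n) ih ?_
    unfold Fr
    rw [neg_zero, TS_zero, Real.exp_zero, sub_self, mul_zero]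

theorem Fr_succ (n : ℕ) (y : ℝ) : Fr (n + 1) y = y ^ n / (n.factorial : ℝ) - Fr n y := by
  unfold Fr
  rw [TS_succ, neg_pow y n, pow_succ]
  have h : ((-1 : ℝ) ^ n) * ((-1) ^ n) = 1 := by
    rw [← mul_pow]; simp
  linear_combination (y ^ n / (n.factorial : ℝ)) * h

theorem Fr_le (n : ℕ) (y : ℝ) (hy : 0 ≤ y) : Fr n y ≤ y ^ n / (n.factorial : ℝ) := by
  have := Fr_nonneg (n + 1) y hy
  rw [Fr_succ] at this
  linarith

/-- remainder for positive arguments -/
noncomputable def Hr (n : ℕ) (v : ℝ) : ℝ :=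
  Real.exp v * (v ^ n / (n.factorial : ℝ)) - (Real.exp v - TS n v)

theorem Hr_nonneg (n : ℕ) : ∀ v, 0 ≤ v → 0 ≤ Hr n v := by
  induction n with
  | zero => intro v _; simp [Hr, TS]
  | succ n ih =>
    have hd : ∀ v : ℝ, HasDerivAt (Hr (n + 1))
        (Real.exp v * (v ^ (n + 1) / ((n + 1).factorial : ℝ)) + Hr n v) v := by
      intro v
      have h1 := (hasDerivAt_pow (n + 1) v).div_const ((n + 1).factorial : ℝ)
      have e : ((n + 1 : ℕ) : ℝ) * v ^ (n + 1 - 1) / ((n + 1).factorial : ℝ) =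
          v ^ n / (n.factorial : ℝ) := by
        rw [Nat.factorial_succ]
        push_cast
        have h2 : (n.factorial : ℝ) ≠ 0 := by exact_mod_cast n.factorial_ne_zero
        have h3 : ((n : ℝ) + 1) ≠ 0 := by positivity
        field_simp
      rw [e] at h1
      have h4 := ((Real.hasDerivAt_exp v).mul h1).sub
        ((Real.hasDerivAt_exp v).sub (TS_hasDeriv n v))
      have e2 : Real.exp v * (v ^ (n + 1) / ((n + 1).factorial : ℝ)) +
          Real.exp v * (v ^ n / (n.factorial : ℝ)) - (Real.exp v - TS n v) =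
          Real.exp v * (v ^ (n + 1) / ((n + 1).factorial : ℝ)) + Hr n v := by
        unfold Hr; ring
      rw [e2] at h4
      exact h4
    refine mono_of_deriv hd (fun v hv => ?_) ?_
    · have := ih v hv
      have h5 : 0 ≤ Real.exp v * (v ^ (n + 1) / ((n + 1).factorial : ℝ)) := by positivity
      linarith
    · unfold Hr
      rw [TS_zero, Real.exp_zero, zero_pow (Nat.succ_ne_zero n)]
      simp

theorem TS_le_exp_of_nonneg (n : ℕ) {v : ℝ} (hv : 0 ≤ v) : TS n v ≤ Real.exp v :=
  Real.sum_le_exp_of_nonneg hv n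

/-- lower bound, even number of terms, all real arguments -/
theorem TS_le_exp {n : ℕ} (hn : Even n) (v : ℝ) : TS n v ≤ Real.exp v := by
  rcases le_total 0 v with hv | hv
  · exact TS_le_exp_of_nonneg n hv
  · have h := Fr_nonneg n (-v) (by linarith)
    unfold Fr at h
    rw [neg_neg, hn.neg_one_pow, one_mul] at h
    linarith

/-- upper bound, even number of terms -/
theorem exp_le_TS {n : ℕ} (hn : Even n) {v V κ : ℝ} (hv : v ≤ V) (hκ : Real.exp V ≤ κ)
    (hκ1 : 1 ≤ κ) : Real.exp v ≤ TS n v + κ * (v ^ n / (n.factorial : ℝ)) := by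
  have hp : 0 ≤ v ^ n / (n.factorial : ℝ) := div_nonneg (hn.pow_nonneg v) (by positivity)
  rcases le_total 0 v with h0 | h0
  · have h := Hr_nonneg n v h0
    unfold Hr at h
    have h1 : Real.exp v ≤ κ := (Real.exp_le_exp.2 hv).trans hκ
    have h2 := mul_le_mul_of_nonneg_right h1 hp
    linarith
  · have h := Fr_le n (-v) (by linarith)
    unfold Fr at h
    rw [neg_neg, hn.neg_one_pow, one_mul, hn.neg_pow] at h
    have h2 := mul_le_mul_of_nonneg_right hκ1 hp
    linarith

end Pool.Agent.Helper26.LPC
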